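import Mathlib
import Pool.Agent.GrothDefs
import Pool.Agent.GrothMain
import Pool.Agent.GrothK3

set_option autoImplicit false

namespace Pool.Agent.Results.MP_8a2df8_gt.CompactFactor

open Pool.Agent.Groth

/-- If `X` is a Grothendieck space then `X × K` is a Grothendieck space for every compact
Hausdorff space `K`; in particular `X × [0,1]` is Grothendieck. -/
theorem result.{u, v} : ∀ (X : Type u) [TopologicalSpace X] [T35Space X], Grothendieck X →
    (∀ (K : Type v) [TopologicalSpace K] [CompactSpace K] [T2Space K], Grothendieck (X × K)) ∧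
      Grothendieck (X × Set.Icc (0 : ℝ) 1) := by
  intro X _ _ hX
  refine ⟨?_, ?_⟩
  · intro K _ _ _
    exact g_of_ang (ang_compact (ang_of_g hX))
  · exact g_of_ang (ang_compact (ang_of_g hX))

end Pool.Agent.Results.MP_8a2df8_gt.CompactFactor
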